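import Pool.Agent.H56.KAF.Stmts

/-!
# Module FIN: restriction to a full family
-/

set_option autoImplicit false

namespace Pool.KAF

open Finset Real
open Pool.Agent.H49.Ent Pool.Agent.H32.Dense Pool.STK

open Classical in
/-- Mass of an event. -/
noncomputable def finMs {Ω : Type} [Fintype Ω] (p : Ω → ℝ) (Q : Ω → Prop) : ℝ :=
  ∑ ω, if Q ω then p ω else 0

lemma finMs_mono {Ω : Type} [Fintype Ω] {p : Ω → ℝ} (hp : ∀ ω, 0 ≤ p ω) {Q Q' : Ω → Prop}
    (h : ∀ ω, 0 < p ω → Q ω → Q' ω) : finMs p Q ≤ finMs p Q' := by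
  classical
  unfold finMs
  refine Finset.sum_le_sum fun ω _ => ?_
  by_cases h1 : Q ω
  · rw [if_pos h1]
    rcases (hp ω).lt_or_eq with h0 | h0
    · rw [if_pos (h ω h0 h1)]
    · rw [← h0]; split_ifs <;> exact le_rfl
  · rw [if_neg h1]
    split_ifs
    exacts [hp ω, le_rfl]

lemma finMs_nonneg {Ω : Type} [Fintype Ω] {p : Ω → ℝ} (hp : ∀ ω, 0 ≤ p ω) (Q : Ω → Prop) :
    0 ≤ finMs p Q := by
  classical
  unfold finMs
  exact Finset.sum_nonneg fun ω _ => by split_ifs; exacts [hp ω, le_rfl]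

lemma finMs_split {Ω : Type} [Fintype Ω] (p : Ω → ℝ) (Q R : Ω → Prop) :
    finMs p Q = finMs p (fun ω => Q ω ∧ R ω) + finMs p (fun ω => Q ω ∧ ¬ R ω) := by
  classical
  unfold finMs
  rw [← Finset.sum_add_distrib]
  refine Finset.sum_congr rfl fun ω _ => ?_
  by_cases h1 : Q ω <;> by_cases h2 : R ω <;> simp [h1, h2]

lemma finMs_true {Ω : Type} [Fintype Ω] {p : Ω → ℝ} (h1 : ∑ ω, p ω = 1) :
    finMs p (fun _ => True) = 1 := by
  classical
  unfold finMs
  simpa using h1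

lemma fin_law {Ω S : Type} [Fintype Ω] (p : Ω → ℝ) (A : Ω → S) (a : S) :
    law p A a = finMs p (fun ω => A ω = a) := rfl

lemma fin_Pr {Ω : Type} [Fintype Ω] (p : Ω → ℝ) (E : Set Ω) :
    Pr p E = finMs p (fun ω => ω ∈ E) := by
  classical
  unfold Pr law finMs
  refine Finset.sum_congr rfl fun ω _ => ?_
  simp only [eq_iff_iff, iff_true]

lemma fin_law_rs {Ω S : Type} [Fintype Ω] (p : Ω → ℝ) (E : Set Ω) (A : Ω → S) (a : S) :
    law (rs p E) A a = finMs p (fun ω => A ω = a ∧ ω ∈ E) / Pr p E := by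
  classical
  unfold rs Pr
  rw [law_cond]
  congr 1
  unfold law finMs
  refine Finset.sum_congr rfl fun ω _ => ?_
  simp only [Prod.mk.injEq, eq_iff_iff, iff_true]
  by_cases h : A ω = a ∧ ω ∈ E
  · rw [if_pos h, if_pos h]
  · rw [if_neg h, if_neg h]

/-- Averaging: if the conditional probability of `E` given `Z` is small on an event which depends
on `Z`, then this event is small. -/
lemma fin_avg {Ω T : Type} [Fintype Ω] {p : Ω → ℝ} (hp : ∀ ω, 0 ≤ p ω) (Z : Ω → T) (E : Set Ω) :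
    finMs p (fun ω => 2 * finMs p (fun v => Z v = Z ω ∧ v ∈ E) < law p Z (Z ω)) ≤
      2 * finMs p (fun ω => ω ∉ E) := by
  classical
  set g : T → ℝ := fun z =>
    if 2 * finMs p (fun v => Z v = z ∧ v ∈ E) < law p Z z then 1 else 0 with hg
  have h1 : finMs p (fun ω => 2 * finMs p (fun v => Z v = Z ω ∧ v ∈ E) < law p Z (Z ω)) =
      ∑ ω, p ω * g (Z ω) := by
    unfold finMs
    refine Finset.sum_congr rfl fun ω _ => ?_
    simp only [hg, mul_ite, mul_one, mul_zero]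
    unfold finMs
    rfl
  rw [h1, sum_mul_eq_sum_image]
  have h2 : ∀ z, law p Z z * g z ≤ 2 * finMs p (fun v => Z v = z ∧ ¬ v ∈ E) := by
    intro z
    have hsplit := finMs_split p (fun v => Z v = z) (fun v => v ∈ E)
    rw [← fin_law] at hsplit
    have hnn := finMs_nonneg hp (fun v => Z v = z ∧ ¬ v ∈ E)
    have hnn' := finMs_nonneg hp (fun v => Z v = z ∧ v ∈ E)
    by_cases hb : 2 * finMs p (fun v => Z v = z ∧ v ∈ E) < law p Z z
    · have : g z = 1 := by simp only [hg]; rw [if_pos hb]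
      rw [this, mul_one]
      linarith
    · have : g z = 0 := by simp only [hg]; rw [if_neg hb]
      rw [this, mul_zero]
      linarith
  refine (Finset.sum_le_sum fun z _ => h2 z).trans (le_of_eq ?_)
  rw [← Finset.mul_sum]
  congr 1
  unfold finMs
  rw [Finset.sum_comm]
  refine Finset.sum_congr rfl fun v _ => ?_
  by_cases hv : v ∈ E
  · simp [hv]
  · simp [hv]

theorem fin_thm (rst : RSTStmt) : FINStmt := by
  classical
  intro m J Ω ζ _ p u d t Z hF hDet κ δ K θ hκ hδ hK hEx hSup hK2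
  have hp := hF.law.nonneg
  have hK0 : 0 < K := by linarith
  set E₁ : Set Ω := {ω | cp p (Fl d J) Z ω ≤ K * κ} with hE₁
  set E₂ : Set Ω := {ω | law p Z (Z ω) ≤ 2 * finMs p (fun v => Z v = Z ω ∧ v ∈ E₁)} with hE₂
  set E : Set Ω := {ω | ω ∈ E₁ ∧ ω ∈ E₂} with hE
  have hcp : ∀ ω, 0 ≤ cp p (Fl d J) Z ω := fun ω =>
    div_nonneg (law_nonneg hp _ _) (law_nonneg hp _ _)
  have hM : K * finMs p (fun ω => ¬ ω ∈ E₁) ≤ 1 := by
    have h1 : (K * κ) * finMs p (fun ω => ¬ ω ∈ E₁) ≤ Ex p (cp p (Fl d J) Z) := by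
      unfold Ex finMs
      rw [Finset.mul_sum]
      refine Finset.sum_le_sum fun ω _ => ?_
      by_cases h : ω ∈ E₁
      · rw [if_neg (not_not.mpr h), mul_zero]
        exact mul_nonneg (hp ω) (hcp ω)
      · rw [if_pos h, mul_comm]
        have h' : K * κ < cp p (Fl d J) Z ω := not_le.mp h
        exact mul_le_mul_of_nonneg_left h'.le (hp ω)
    have h2 : κ * (K * finMs p (fun ω => ¬ ω ∈ E₁)) ≤ κ * 1 := by
      rw [mul_one]; refine le_trans (le_of_eq ?_) (h1.trans hEx); ring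
    exact le_of_mul_le_mul_left h2 hκ
  have hA := fin_avg hp Z E₁
  have hPr : 1 - 3 / K ≤ Pr p E := by
    rw [fin_Pr]
    have s1 := finMs_split p (fun _ => True) (fun ω => ω ∈ E₁)
    rw [finMs_true hF.law.sum_one] at s1
    have s2 := finMs_split p (fun ω => True ∧ ω ∈ E₁) (fun ω => ω ∈ E₂)
    have s3 : finMs p (fun ω => (True ∧ ω ∈ E₁) ∧ ω ∈ E₂) ≤ finMs p (fun ω => ω ∈ E) :=
      finMs_mono hp fun ω _ h => ⟨h.1.2, h.2⟩
    have s4 : finMs p (fun ω => (True ∧ ω ∈ E₁) ∧ ¬ ω ∈ E₂) ≤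
        finMs p (fun ω => 2 * finMs p (fun v => Z v = Z ω ∧ v ∈ E₁) < law p Z (Z ω)) :=
      finMs_mono hp fun ω _ h => not_le.mp h.2
    have s5 : finMs p (fun ω => True ∧ ¬ ω ∈ E₁) ≤ finMs p (fun ω => ¬ ω ∈ E₁) :=
      finMs_mono hp fun ω _ h => h.2
    have h2 : finMs p (fun ω => ¬ ω ∈ E₁) ≤ 1 / K := by
      rw [le_div_iff₀ hK0, mul_comm]; exact hM
    have h3 : 3 / K = 1 / K + 2 * (1 / K) := by ring
    linarith
  have hPos : 0 < Pr p E := by
    have : 3 / K ≤ 3 / 8 := div_le_div_of_nonneg_left (by norm_num) (by norm_num) hK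
    linarith
  obtain ⟨hL, hpos, -, -⟩ := rst Ω Ω Ω p hF.law E hPos
  refine ⟨E, hPr, ⟨⟨hL, hF.u_nonneg, hF.u_lt, hF.d_nonneg, hF.d_lt, hF.t_lt⟩, ?_, ?_⟩⟩
  · intro ω ω' h h' he
    exact hDet ω ω' ((hpos ω).mp h).1 ((hpos ω').mp h').1 he
  · intro ω
    rw [fin_law_rs, fin_law_rs, ← mul_div_assoc]
    refine div_le_div_of_nonneg_right ?_ hPos.le
    by_cases hex : ∃ v, ((Fl d J v, t v), Z v) = ((Fl d J ω, t ω), Z ω) ∧ v ∈ E ∧ 0 < p v
    · obtain ⟨v, hv, hvE, hvp⟩ := hex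
      simp only [Prod.mk.injEq] at hv
      obtain ⟨⟨hv1, hv2⟩, hv3⟩ := hv
      have e1 : finMs p (fun w => ((Fl d J w, t w), Z w) = ((Fl d J ω, t ω), Z ω) ∧ w ∈ E) ≤
          law p (fun w => (t w, (Fl d J w, Z w))) (t v, (Fl d J v, Z v)) := by
        rw [fin_law]
        refine finMs_mono hp fun w _ hw => ?_
        have hw1 := hw.1
        simp only [Prod.mk.injEq] at hw1
        simp only [Prod.mk.injEq]
        exact ⟨hw1.1.2.trans hv2.symm, hw1.1.1.trans hv1.symm, hw1.2.trans hv3.symm⟩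
      have e2 : law p (fun w => (t w, (Fl d J w, Z w))) (t v, (Fl d J v, Z v)) ≤
          δ * law p (fun w => (Fl d J w, Z w)) (Fl d J v, Z v) := hSup v
      have hZpos : 0 < law p Z (Z v) := law_pos hp Z hvp
      have e3 : law p (fun w => (Fl d J w, Z w)) (Fl d J v, Z v) ≤ K * κ * law p Z (Z v) := by
        have : cp p (Fl d J) Z v ≤ K * κ := hvE.1
        unfold cp at this
        rwa [div_le_iff₀ hZpos] at this
      have e4 : law p Z (Z v) ≤ 2 * finMs p (fun w => Z w = Z v ∧ w ∈ E₁) := hvE.2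
      have e5 : finMs p (fun w => Z w = Z v ∧ w ∈ E₁) ≤ finMs p (fun w => Z w = Z ω ∧ w ∈ E) := by
        refine finMs_mono hp fun w _ hw => ⟨hw.1.trans hv3, hw.2, ?_⟩
        show law p Z (Z w) ≤ 2 * finMs p (fun v => Z v = Z w ∧ v ∈ E₁)
        rw [hw.1]
        exact e4
      have e6 : K * κ * δ * 2 ≤ Real.exp (θ * J) / 2 ^ ((m + 1) * J) := by
        rw [le_div_iff₀ (by positivity)]
        refine le_trans (le_of_eq ?_) hK2
        ring
      have hS := finMs_nonneg hp (fun w => Z w = Z ω ∧ w ∈ E)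
      have hKκ : 0 ≤ K * κ := mul_nonneg hK0.le hκ.le
      calc finMs p (fun w => ((Fl d J w, t w), Z w) = ((Fl d J ω, t ω), Z ω) ∧ w ∈ E)
          ≤ δ * law p (fun w => (Fl d J w, Z w)) (Fl d J v, Z v) := e1.trans e2
        _ ≤ δ * (K * κ * law p Z (Z v)) := mul_le_mul_of_nonneg_left e3 hδ
        _ ≤ δ * (K * κ * (2 * finMs p (fun w => Z w = Z v ∧ w ∈ E₁))) :=
            mul_le_mul_of_nonneg_left (mul_le_mul_of_nonneg_left e4 hKκ) hδ
        _ ≤ δ * (K * κ * (2 * finMs p (fun w => Z w = Z ω ∧ w ∈ E))) :=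
            mul_le_mul_of_nonneg_left (mul_le_mul_of_nonneg_left (by linarith) hKκ) hδ
        _ = (K * κ * δ * 2) * finMs p (fun w => Z w = Z ω ∧ w ∈ E) := by ring
        _ ≤ _ := mul_le_mul_of_nonneg_right e6 hS
    · have hz : finMs p (fun w => ((Fl d J w, t w), Z w) = ((Fl d J ω, t ω), Z ω) ∧ w ∈ E) ≤
          finMs p (fun _ => False) :=
        finMs_mono hp fun w h0 hw => hex ⟨w, hw.1, hw.2, h0⟩
      have hz' : finMs p (fun _ => False) = 0 := by
        unfold finMs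
        simp
      have hS := finMs_nonneg hp (fun w => Z w = Z ω ∧ w ∈ E)
      refine (hz.trans hz'.le).trans (mul_nonneg (by positivity) hS)

end Pool.KAF
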